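import Mathlib

/-!
# Weighted Eden growth: the metric `D` and the limit shape `𝔹`
-/

open Set MeasureTheory
open scoped ENNReal NNReal RealInnerProductSpace

namespace Pool.Agent.R963.Star

/-- `ℝ^d` with its Euclidean norm. -/
abbrev E (d : ℕ) := EuclideanSpace ℝ (Fin d)

variable {d : ℕ}

/-- The weight function `f(z) = |z|^α f₀(z/|z|)` (its value at `z = 0` is irrelevant). -/
noncomputable def weight (α : ℝ) (f₀ : E d → ℝ) (z : E d) : ℝ := ‖z‖ ^ α * f₀ (‖z‖⁻¹ • z)

/-- `f₀` is strictly positive and Lipschitz on the Euclidean unit sphere. -/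
def IsAngular (f₀ : E d → ℝ) : Prop :=
  (∀ x ∈ Metric.sphere (0 : E d) 1, 0 < f₀ x) ∧
    ∃ L : ℝ≥0, LipschitzOnWith L f₀ (Metric.sphere (0 : E d) 1)

/-- The integral of `dt / f` over the straight segment from `x` to `y`, parametrised by
`μ`-length (the substitution `t = s μ(y - x)` turns it into an integral over `s ∈ [0,1]`). -/
noncomputable def segLen (μ f : E d → ℝ) (x y : E d) : ℝ≥0∞ :=
  ENNReal.ofReal (μ (y - x)) *
    ∫⁻ s in Set.Icc (0 : ℝ) 1, ENNReal.ofReal ((f (x + s • (y - x)))⁻¹)

/-- The `D`-length of the piecewise linear path with successive vertices `x, l₁, l₂, …`. -/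
noncomputable def pathLen (μ f : E d → ℝ) : E d → List (E d) → ℝ≥0∞
  | _, [] => 0
  | x, y :: l => segLen μ f x y + pathLen μ f y l

/-- The last vertex of the piecewise linear path `x, l₁, l₂, …`. -/
def endpt : E d → List (E d) → E d
  | x, [] => x
  | _, y :: l => endpt y l

/-- `D(z,w)`: the infimum of the `D`-lengths of the piecewise linear paths from `z` to `w`. -/
noncomputable def D (μ f : E d → ℝ) (z w : E d) : ℝ≥0∞ :=
  ⨅ (l : List (E d)) (_ : endpt z l = w), pathLen μ f z l

/-- The shape `𝔹 = {z : D(0,z) ≤ 1}` of the `α`-weight function given by `f₀`. -/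
noncomputable def shape (μ : E d → ℝ) (α : ℝ) (f₀ : E d → ℝ) : Set (E d) :=
  {z | D μ (weight α f₀) 0 z ≤ 1}

/-- `K` has Lipschitz boundary: near each boundary point `z`, in a suitable orthonormal frame with
vertical unit vector `u`, `K` is the set of points on or below the graph of a Lipschitz function
`h` of the horizontal component `x - ⟪u,x⟫ u`. -/
def HasLipschitzBoundary (K : Set (E d)) : Prop :=
  ∀ z ∈ frontier K, ∃ u : E d, ‖u‖ = 1 ∧ ∃ (h : E d → ℝ) (L : ℝ≥0), LipschitzWith L h ∧
    ∃ U : Set (E d), IsOpen U ∧ z ∈ U ∧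
      ∀ x ∈ U, (x ∈ K ↔ ⟪u, x⟫ ≤ h (x - ⟪u, x⟫ • u))

/-- The sets of the question: compact, with Lipschitz boundary, containing a neighbourhood of the
origin, and with boundary meeting every ray from the origin in exactly one point. -/
def IsStarBody (K : Set (E d)) : Prop :=
  IsCompact K ∧ HasLipschitzBoundary K ∧ K ∈ nhds (0 : E d) ∧
    ∀ v : E d, v ≠ 0 → ∃! x : E d, x ∈ frontier K ∧ ∃ t : ℝ, 0 ≤ t ∧ x = t • v

end Pool.Agent.R963.Star
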