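import Pool.Agent.R963.Star.Ball

open Set MeasureTheory Filter Topology
open scoped ENNReal NNReal RealInnerProductSpace

namespace Pool.Agent.R963.Star

variable {d : ℕ}

/-! ### Norms on `ℝ^d` -/

theorem seminorm_continuous (μ : Seminorm ℝ (E d)) : Continuous μ := by
  have h := μ.convexOn.continuousOn (C := Set.univ) isOpen_univ
  exact continuousOn_univ.1 h

theorem exists_lower (μ : Seminorm ℝ (E d)) (hμ : ∀ x, μ x = 0 → x = 0) :
    ∃ κ : ℝ, 0 < κ ∧ ∀ x, κ * ‖x‖ ≤ μ x := by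
  have hcont := seminorm_continuous μ
  rcases (Metric.sphere (0 : E d) 1).eq_empty_or_nonempty with h | h
  · refine ⟨1, one_pos, fun x => ?_⟩
    by_cases hx : x = 0
    · simp [hx]
    · exfalso
      have : (‖x‖⁻¹ • x) ∈ Metric.sphere (0 : E d) 1 := by
        rw [mem_sphere_zero_iff_norm, norm_smul, norm_inv, norm_norm,
          inv_mul_cancel₀ (norm_ne_zero_iff.2 hx)]
      rw [h] at this
      exact this
  · obtain ⟨x₀, hx₀, hmin⟩ := (isCompact_sphere (0 : E d) 1).exists_isMinOn h hcont.continuousOn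
    have hx₀' : x₀ ≠ 0 := by
      rintro rfl
      simp at hx₀
    refine ⟨μ x₀, lt_of_le_of_ne (apply_nonneg μ _) (fun h => hx₀' (hμ _ h.symm)), fun x => ?_⟩
    by_cases hx : x = 0
    · simp [hx]
    · have hxs : (‖x‖⁻¹ • x) ∈ Metric.sphere (0 : E d) 1 := by
        rw [mem_sphere_zero_iff_norm, norm_smul, norm_inv, norm_norm,
          inv_mul_cancel₀ (norm_ne_zero_iff.2 hx)]
      have h1 : μ x₀ ≤ μ (‖x‖⁻¹ • x) := hmin hxs
      rw [map_smul_eq_mul, norm_inv, norm_norm, inv_mul_eq_div, le_div_iff₀ (norm_pos_iff.2 hx)] at h1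
      exact h1

/-! ### Bounds for segments inside a small ball -/

theorem segLen_ge (μ : Seminorm ℝ (E d)) {f : E d → ℝ} {p : E d} {ε m : ℝ}
    (hm : ∀ x ∈ Metric.closedBall p ε, m ≤ (f x)⁻¹) {x y : E d}
    (hx : x ∈ Metric.closedBall p ε) (hy : y ∈ Metric.closedBall p ε) (_hm0 : 0 ≤ m) :
    ENNReal.ofReal (m * μ (y - x)) ≤ segLen μ f x y := by
  unfold segLen
  rw [mul_comm m, ENNReal.ofReal_mul (apply_nonneg μ _)]
  gcongr
  calc ENNReal.ofReal m = ∫⁻ s in Set.Icc (0 : ℝ) 1, ENNReal.ofReal m := by simp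
    _ ≤ _ := by
      apply setLIntegral_mono' measurableSet_Icc
      intro s hs
      apply ENNReal.ofReal_le_ofReal
      apply hm
      have := (convex_closedBall p ε).add_smul_sub_mem hx hy hs
      exact this

theorem segLen_le (μ : Seminorm ℝ (E d)) {f : E d → ℝ} {p : E d} {ε M : ℝ}
    (hM : ∀ x ∈ Metric.closedBall p ε, (f x)⁻¹ ≤ M) {x y : E d}
    (hx : x ∈ Metric.closedBall p ε) (hy : y ∈ Metric.closedBall p ε) :
    segLen μ f x y ≤ ENNReal.ofReal (μ (y - x) * M) := by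
  unfold segLen
  rw [ENNReal.ofReal_mul (apply_nonneg μ _)]
  gcongr
  have h1 : ∫⁻ s in Set.Icc (0 : ℝ) 1, ENNReal.ofReal ((f (x + s • (y - x)))⁻¹) ≤
      ∫⁻ s in Set.Icc (0 : ℝ) 1, ENNReal.ofReal M := by
    apply setLIntegral_mono' measurableSet_Icc
    intro s hs
    apply ENNReal.ofReal_le_ofReal
    apply hM
    exact (convex_closedBall p ε).add_smul_sub_mem hx hy hs
  refine h1.trans ?_
  simp

/-- Every path to `p` either stays in the small ball around `p`, or it visits a point `w` of the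
sphere and pays at least `m κ ε` afterwards. -/
theorem last_visit (μ : Seminorm ℝ (E d)) {f : E d → ℝ} {p : E d} {ε m κ : ℝ} (hε : 0 < ε)
    (_hκ0 : 0 < κ) (hκ : ∀ x, κ * ‖x‖ ≤ μ x)
    (hm0 : 0 ≤ m) (hm : ∀ x ∈ Metric.closedBall p ε, m ≤ (f x)⁻¹) (l : List (E d)) :
    ∀ x : E d, endpt x l = p →
      (∃ w : E d, ‖w - p‖ = ε ∧ D μ f x w + ENNReal.ofReal (m * (κ * ε)) ≤ pathLen μ f x l) ∨
      (x ∈ Metric.closedBall p ε ∧ ENNReal.ofReal (m * μ (p - x)) ≤ pathLen μ f x l) := by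
  induction l with
  | nil =>
    intro x hx
    have hx' : x = p := hx
    right
    subst hx'
    refine ⟨Metric.mem_closedBall_self hε.le, ?_⟩
    simp [pathLen]
  | cons y l ih =>
    intro x hx
    have hx' : endpt y l = p := hx
    rcases ih y hx' with ⟨w, hw, hle⟩ | ⟨hy, hle⟩
    · left
      refine ⟨w, hw, ?_⟩
      calc D μ f x w + ENNReal.ofReal (m * (κ * ε))
          ≤ segLen μ f x y + D μ f y w + ENNReal.ofReal (m * (κ * ε)) := by
            gcongr; exact D_le_cons μ f x y w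
        _ = segLen μ f x y + (D μ f y w + ENNReal.ofReal (m * (κ * ε))) := by rw [add_assoc]
        _ ≤ segLen μ f x y + pathLen μ f y l := by gcongr
        _ = pathLen μ f x (y :: l) := rfl
    · by_cases hxb : x ∈ Metric.closedBall p ε
      · right
        refine ⟨hxb, ?_⟩
        have h1 := segLen_ge μ hm hxb hy hm0
        calc ENNReal.ofReal (m * μ (p - x))
            ≤ ENNReal.ofReal (m * μ (y - x) + m * μ (p - y)) := by
              apply ENNReal.ofReal_le_ofReal
              rw [← mul_add]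
              gcongr
              calc μ (p - x) = μ ((y - x) + (p - y)) := by congr 1; abel
                _ ≤ _ := map_add_le_add μ _ _
          _ = ENNReal.ofReal (m * μ (y - x)) + ENNReal.ofReal (m * μ (p - y)) :=
              ENNReal.ofReal_add (mul_nonneg hm0 (apply_nonneg μ _))
                (mul_nonneg hm0 (apply_nonneg μ _))
          _ ≤ segLen μ f x y + pathLen μ f y l := add_le_add h1 hle
          _ = pathLen μ f x (y :: l) := rfl
      · left
        have hxb' : ε < ‖x - p‖ := by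
          rw [Metric.mem_closedBall, dist_eq_norm] at hxb
          exact not_le.1 hxb
        have hyb' : ‖y - p‖ ≤ ε := by
          rwa [Metric.mem_closedBall, dist_eq_norm] at hy
        have hcont : ContinuousOn (fun t : ℝ => ‖x + t • (y - x) - p‖) (Set.Icc 0 1) := by
          fun_prop
        have hivt := intermediate_value_Icc' (zero_le_one' ℝ) hcont
        have hmem : ε ∈ Set.Icc (‖x + (1 : ℝ) • (y - x) - p‖) (‖x + (0 : ℝ) • (y - x) - p‖) := by
          constructor
          · simpa using hyb'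
          · simpa using hxb'.le
        obtain ⟨θ, ⟨hθ0, hθ1⟩, hθ⟩ := hivt hmem
        set w : E d := x + θ • (y - x) with hw
        have hwn : ‖w - p‖ = ε := hθ
        have hwb : w ∈ Metric.closedBall p ε := by
          rw [Metric.mem_closedBall, dist_eq_norm, hwn]
        refine ⟨w, hwn, ?_⟩
        have h1 := segLen_ge μ hm hwb hy hm0
        have h2 : m * (κ * ε) ≤ m * μ (y - w) + m * μ (p - y) := by
          rw [← mul_add]
          gcongr
          calc κ * ε = κ * ‖p - w‖ := by rw [norm_sub_rev, hwn]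
            _ ≤ μ (p - w) := hκ _
            _ = μ ((y - w) + (p - y)) := by congr 1; abel
            _ ≤ _ := map_add_le_add μ _ _
        calc D μ f x w + ENNReal.ofReal (m * (κ * ε))
            ≤ segLen μ f x w + ENNReal.ofReal (m * μ (y - w) + m * μ (p - y)) := by
              gcongr
              exact D_le_segLen μ f x w
          _ = segLen μ f x w + (ENNReal.ofReal (m * μ (y - w)) + ENNReal.ofReal (m * μ (p - y))) := by
              rw [ENNReal.ofReal_add (mul_nonneg hm0 (apply_nonneg μ _))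
                (mul_nonneg hm0 (apply_nonneg μ _))]
          _ ≤ segLen μ f x w + (segLen μ f w y + pathLen μ f y l) := by gcongr
          _ = (segLen μ f x w + segLen μ f w y) + pathLen μ f y l := by rw [add_assoc]
          _ = segLen μ f x y + pathLen μ f y l := by rw [hw, segLen_split μ f x y hθ0 hθ1]
          _ = pathLen μ f x (y :: l) := rfl

/-! ### Continuity of weight functions away from the origin -/

theorem weight_continuousAt {α : ℝ} {f₀ : E d → ℝ} (hf : IsAngular f₀) {p : E d} (hp : p ≠ 0) :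
    ContinuousAt (weight α f₀) p := by
  obtain ⟨-, L, hL⟩ := hf
  unfold weight
  apply ContinuousAt.mul
  · apply ContinuousAt.rpow_const continuous_norm.continuousAt
    left
    exact norm_ne_zero_iff.2 hp
  · have h1 : Tendsto (fun z : E d => ‖z‖⁻¹ • z) (𝓝 p) (𝓝[Metric.sphere (0 : E d) 1] (‖p‖⁻¹ • p)) := by
      rw [tendsto_nhdsWithin_iff]
      constructor
      · have : ContinuousAt (fun z : E d => ‖z‖⁻¹ • z) p := by
          exact (continuous_norm.continuousAt.inv₀ (norm_ne_zero_iff.2 hp)).smul continuousAt_id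
        exact this
      · filter_upwards [isOpen_ne.mem_nhds hp] with z hz
        have hz' : z ≠ 0 := hz
        rw [mem_sphere_zero_iff_norm, norm_smul, norm_inv, norm_norm,
          inv_mul_cancel₀ (norm_ne_zero_iff.2 hz')]
    have h2 : ContinuousWithinAt f₀ (Metric.sphere (0 : E d) 1) (‖p‖⁻¹ • p) := by
      apply hL.continuousOn
      rw [mem_sphere_zero_iff_norm, norm_smul, norm_inv, norm_norm,
        inv_mul_cancel₀ (norm_ne_zero_iff.2 hp)]
    exact h2.tendsto.comp h1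

theorem weight_pos {α : ℝ} {f₀ : E d → ℝ} (hf : IsAngular f₀) {p : E d} (hp : p ≠ 0) :
    0 < weight α f₀ p := by
  unfold weight
  apply mul_pos (Real.rpow_pos_of_pos (norm_pos_iff.2 hp) _)
  apply hf.1
  rw [mem_sphere_zero_iff_norm, norm_smul, norm_inv, norm_norm,
    inv_mul_cancel₀ (norm_ne_zero_iff.2 hp)]

/-! ### The weighted `ℓ¹` norm with a sharp corner -/

/-- The weights `1, λ, λ, …`. -/
noncomputable def wts (i₀ : Fin d) (lam : ℝ) (i : Fin d) : ℝ := if i = i₀ then 1 else lam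

/-- The norm `|x_{i₀}| + λ ∑_{i ≠ i₀} |x_i|`. -/
noncomputable def spike (i₀ : Fin d) (lam : ℝ) (hl : 0 ≤ lam) : Seminorm ℝ (E d) :=
  Seminorm.of (fun x => ∑ i, wts i₀ lam i * |x i|)
    (by
      intro x y
      rw [← Finset.sum_add_distrib]
      apply Finset.sum_le_sum
      intro i _
      rw [← mul_add]
      have : 0 ≤ wts i₀ lam i := by unfold wts; split_ifs <;> [norm_num; exact hl]
      gcongr
      exact abs_add_le _ _)
    (by
      intro a x
      rw [Finset.mul_sum]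
      apply Finset.sum_congr rfl
      intro i _
      simp only [PiLp.smul_apply, smul_eq_mul, abs_mul, Real.norm_eq_abs]
      ring)

theorem spike_apply (i₀ : Fin d) (lam : ℝ) (hl : 0 ≤ lam) (x : E d) :
    spike i₀ lam hl x = ∑ i, wts i₀ lam i * |x i| := rfl

theorem abs_le_spike (i₀ : Fin d) (lam : ℝ) (hl : 0 ≤ lam) (x : E d) :
    |x i₀| ≤ spike i₀ lam hl x := by
  rw [spike_apply]
  calc |x i₀| = wts i₀ lam i₀ * |x i₀| := by simp [wts]
    _ ≤ _ := Finset.single_le_sum (f := fun i => wts i₀ lam i * |x i|) (fun i _ => by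
        have : 0 ≤ wts i₀ lam i := by unfold wts; split_ifs <;> [norm_num; exact hl]
        positivity) (Finset.mem_univ i₀)

theorem norm_le_spike (i₀ : Fin d) (lam : ℝ) (hl : 1 ≤ lam) (x : E d) :
    1 * ‖x‖ ≤ spike i₀ lam (zero_le_one.trans hl) x := by
  rw [one_mul, spike_apply]
  have h1 : ‖x‖ ≤ ∑ i, |x i| := by
    have h2 : x = ∑ i, x i • EuclideanSpace.single i (1 : ℝ) := by
      ext j
      simp [Pi.single_apply]
    calc ‖x‖ = ‖∑ i, x i • EuclideanSpace.single i (1 : ℝ)‖ := by rw [← h2]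
      _ ≤ ∑ i, ‖x i • EuclideanSpace.single i (1 : ℝ)‖ := norm_sum_le _ _
      _ = ∑ i, |x i| := by
        apply Finset.sum_congr rfl
        intro i _
        rw [norm_smul]
        simp
  refine h1.trans (Finset.sum_le_sum fun i _ => ?_)
  have : 1 ≤ wts i₀ lam i := by unfold wts; split_ifs <;> [norm_num; exact hl]
  nlinarith [abs_nonneg (x i)]

theorem spike_le_norm (i₀ : Fin d) (lam : ℝ) (hl : 1 ≤ lam) (x : E d) :
    spike i₀ lam (zero_le_one.trans hl) x ≤ (∑ i, wts i₀ lam i) * ‖x‖ := by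
  rw [spike_apply, Finset.sum_mul]
  apply Finset.sum_le_sum
  intro i _
  have : 0 ≤ wts i₀ lam i := by unfold wts; split_ifs <;> linarith
  gcongr
  have := PiLp.norm_apply_le x i
  simpa using this

/-! ### The negative answer in dimension at least two -/

theorem not_shape (hd : 2 ≤ d) (μ : Seminorm ℝ (E d)) (hμ : ∀ x, μ x = 0 → x = 0) :
    ∃ K : Set (E d), IsStarBody K ∧ Convex ℝ K ∧
      ∀ (α : ℝ), α < 1 → ∀ f₀ : E d → ℝ, IsAngular f₀ → K ≠ shape μ α f₀ := by
  obtain ⟨κ, hκ0, hκ⟩ := exists_lower μ hμ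
  set i₀ : Fin d := ⟨0, by omega⟩ with hi₀
  set i₁ : Fin d := ⟨1, by omega⟩ with hi₁
  have hi : i₁ ≠ i₀ := by
    intro h
    have := congrArg Fin.val h
    simp [hi₀, hi₁] at this
  set e₀ : E d := EuclideanSpace.single i₀ (1 : ℝ) with he₀
  set e₁ : E d := EuclideanSpace.single i₁ (1 : ℝ) with he₁
  have he₀n : ‖e₀‖ = 1 := by simp [he₀]
  have he₁n : ‖e₁‖ = 1 := by simp [he₁]
  set lam : ℝ := 1 + 16 * μ e₁ / κ with hlam
  have hlam1 : 1 ≤ lam := by
    have : 0 ≤ 16 * μ e₁ / κ := by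
      have := apply_nonneg μ e₁
      positivity
    linarith
  have hlam0 : 0 ≤ lam := by linarith
  set N : Seminorm ℝ (E d) := spike i₀ lam (zero_le_one.trans hlam1) with hN
  have hC0 : 0 < ∑ i, wts i₀ lam i := by
    apply Finset.sum_pos
    · intro i _
      unfold wts; split_ifs <;> linarith
    · exact ⟨i₀, Finset.mem_univ _⟩
  refine ⟨{x | N x ≤ 1}, isStarBody_ball N one_pos (norm_le_spike i₀ lam hlam1)
    (spike_le_norm i₀ lam hlam1) hC0, ?_, ?_⟩
  · have := N.convexOn.convex_le 1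
    simpa using this
  intro α hα f₀ hf heq
  set a : ℝ := 1 - α with ha
  have ha0 : 0 < a := by linarith
  set f : E d → ℝ := weight α f₀ with hfdef
  have hNe₀ : N e₀ = 1 := by
    rw [hN, spike_apply, Finset.sum_eq_single i₀]
    · simp [he₀, wts]
    · intro b _ hb
      simp [he₀, hb]
    · simp
  -- level sets of `D 0 ·`
  have hlev1 : ∀ z : E d, D μ f 0 z ≤ 1 ↔ N z ≤ 1 := by
    intro z
    have : z ∈ {x | N x ≤ 1} ↔ z ∈ shape μ α f₀ := by rw [heq]
    exact this.symm
  have hlev : ∀ (z : E d) (s : ℝ), 0 < s → D μ f 0 z ≤ ENNReal.ofReal (s ^ a) → N z ≤ s := by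
    intro z s hs hD
    have h1 := D_smul_le μ α f₀ (inv_pos.2 hs) 0 z
    rw [smul_zero] at h1
    have h2 : D μ f 0 (s⁻¹ • z) ≤ 1 := by
      calc D μ f 0 (s⁻¹ • z) ≤ ENNReal.ofReal (s⁻¹ ^ a) * D μ f 0 z := h1
        _ ≤ ENNReal.ofReal (s⁻¹ ^ a) * ENNReal.ofReal (s ^ a) := by gcongr
        _ = 1 := by
          rw [← ENNReal.ofReal_mul (Real.rpow_nonneg (inv_nonneg.2 hs.le) _),
            ← Real.mul_rpow (inv_nonneg.2 hs.le) hs.le, inv_mul_cancel₀ hs.ne', Real.one_rpow]
          simp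
    have h3 := (hlev1 _).1 h2
    rw [map_smul_eq_mul, norm_inv, Real.norm_eq_abs, abs_of_pos hs, inv_mul_eq_div,
      div_le_one hs] at h3
    exact h3
  have hlow : ∀ (z : E d) (s : ℝ), 0 < s → s ≤ N z → ENNReal.ofReal (s ^ a) ≤ D μ f 0 z := by
    intro z s hs hz
    by_contra hlt
    rw [not_le] at hlt
    obtain ⟨v, hv⟩ : ∃ v : ℝ, 0 ≤ v ∧ D μ f 0 z = ENNReal.ofReal v :=
      ⟨(D μ f 0 z).toReal, ENNReal.toReal_nonneg, (ENNReal.ofReal_toReal (ne_top_of_lt hlt)).symm⟩
    obtain ⟨hv0, hv⟩ := hv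
    rw [hv, ENNReal.ofReal_lt_ofReal_iff (Real.rpow_pos_of_pos hs _)] at hlt
    obtain ⟨t, ht1, ht2⟩ := exists_between hlt
    have ht0 : 0 < t := lt_of_le_of_lt hv0 ht1
    have h1 := hlev z (t ^ a⁻¹) (Real.rpow_pos_of_pos ht0 _) (by
      rw [hv, ← Real.rpow_mul ht0.le, inv_mul_cancel₀ ha0.ne', Real.rpow_one]
      exact ENNReal.ofReal_le_ofReal ht1.le)
    have h2 : t ^ a⁻¹ < s := by
      have h3 : t ^ a⁻¹ < (s ^ a) ^ a⁻¹ := Real.rpow_lt_rpow ht0.le ht2 (inv_pos.2 ha0)
      rwa [← Real.rpow_mul hs.le, mul_inv_cancel₀ ha0.ne', Real.rpow_one] at h3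
    linarith
  have he₀0 : e₀ ≠ 0 := by
    intro h
    rw [h] at he₀n
    simp at he₀n
  have hfp : 0 < f e₀ := weight_pos hf he₀0
  set c : ℝ := (f e₀)⁻¹ with hc
  have hc0 : 0 < c := inv_pos.2 hfp
  have hfc : ContinuousAt (fun z => (f z)⁻¹) e₀ := (weight_continuousAt hf he₀0).inv₀ hfp.ne'
  -- the four eventual bounds
  have hev1 : ∃ δ : ℝ, 0 < δ ∧ ∀ z : E d, ‖z - e₀‖ < δ → c / 2 ≤ (f z)⁻¹ ∧ (f z)⁻¹ ≤ 2 * c := by
    have h1 : ∀ᶠ z in 𝓝 e₀, (f z)⁻¹ ∈ Set.Ioo (c / 2) (2 * c) :=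
      hfc.eventually_mem (Ioo_mem_nhds (by linarith) (by linarith))
    obtain ⟨δ, hδ, h2⟩ := Metric.eventually_nhds_iff.1 h1
    refine ⟨δ, hδ, fun z hz => ?_⟩
    have h3 := h2 (y := z) (by rwa [dist_eq_norm])
    exact ⟨h3.1.le, h3.2.le⟩
  have hev2 : ∀ᶠ ε : ℝ in 𝓝[>] 0, 1 - 2 * a * ε ≤ (1 - ε) ^ a := by
    have h1 : HasDerivAt (fun x : ℝ => (1 - x) ^ a) (-a) 0 := by
      have h2 : HasDerivAt (fun x : ℝ => 1 - x) (-1) 0 := by
        simpa using (hasDerivAt_id (0 : ℝ)).const_sub 1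
      have h3 := h2.rpow_const (p := a) (Or.inl (by norm_num))
      simpa using h3
    have h4 := h1.hasDerivWithinAt (s := Set.Ioi 0)
    rw [hasDerivWithinAt_iff_tendsto_slope' (by simp)] at h4
    have h5 : ∀ᶠ ε : ℝ in 𝓝[>] 0, -(2 * a) < slope (fun x : ℝ => (1 - x) ^ a) 0 ε :=
      h4.eventually_const_lt (by linarith)
    filter_upwards [h5, self_mem_nhdsWithin] with ε h6 h7
    have h8 : 0 < ε := h7
    rw [slope_def_field, sub_zero, lt_div_iff₀ (by simpa using h8)] at h6
    simp only [sub_zero, Real.one_rpow] at h6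
    nlinarith
  have hev3 : ∀ᶠ ε : ℝ in 𝓝[>] 0, 1 + a * lam / 2 * ε ≤ (1 + lam * ε) ^ a := by
    have h1 : HasDerivAt (fun x : ℝ => (1 + lam * x) ^ a) (a * lam) 0 := by
      have h2 : HasDerivAt (fun x : ℝ => 1 + lam * x) lam 0 := by
        simpa using ((hasDerivAt_id (0 : ℝ)).const_mul lam).const_add 1
      have h3 := h2.rpow_const (p := a) (Or.inl (by norm_num))
      simp only [mul_zero, add_zero, Real.one_rpow, mul_one] at h3
      rw [mul_comm a lam]
      exact h3
    have h4 := h1.hasDerivWithinAt (s := Set.Ioi 0)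
    rw [hasDerivWithinAt_iff_tendsto_slope' (by simp)] at h4
    have hal : 0 < a * lam := by positivity
    have h5 : ∀ᶠ ε : ℝ in 𝓝[>] 0, a * lam / 2 < slope (fun x : ℝ => (1 + lam * x) ^ a) 0 ε :=
      h4.eventually_const_lt (by linarith)
    filter_upwards [h5, self_mem_nhdsWithin] with ε h6 h7
    have h8 : 0 < ε := h7
    rw [slope_def_field, sub_zero, lt_div_iff₀ (by simpa using h8)] at h6
    simp only [mul_zero, add_zero, Real.one_rpow] at h6
    linarith
  obtain ⟨δ, hδ0, hδ⟩ := hev1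
  have hev4 : ∀ᶠ ε : ℝ in 𝓝[>] 0, ε < min δ 1 := by
    have : Set.Iio (min δ 1) ∈ 𝓝 (0 : ℝ) := Iio_mem_nhds (lt_min hδ0 one_pos)
    exact mem_nhdsWithin_of_mem_nhds this
  obtain ⟨ε, ⟨⟨h2, h3⟩, h4⟩, h5⟩ :=
    (((hev2.and hev3).and hev4).and self_mem_nhdsWithin).exists
  have hε0 : 0 < ε := h5
  have hε1 : ε < 1 := h4.trans_le (min_le_right _ _)
  have hεδ : ε < δ := h4.trans_le (min_le_left _ _)
  have hball : ∀ x ∈ Metric.closedBall e₀ ε, c / 2 ≤ (f x)⁻¹ ∧ (f x)⁻¹ ≤ 2 * c := by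
    intro x hx
    apply hδ
    rw [Metric.mem_closedBall, dist_eq_norm] at hx
    linarith
  -- inequality A
  have hA : (1 - ε) ^ a + c / 2 * (κ * ε) ≤ 1 := by
    have h6 : ENNReal.ofReal ((1 - ε) ^ a) + ENNReal.ofReal (c / 2 * (κ * ε)) ≤ D μ f 0 e₀ := by
      unfold D
      refine le_iInf₂ fun l hl => ?_
      rcases last_visit μ hε0 hκ0 hκ (by positivity : (0 : ℝ) ≤ c / 2)
        (fun x hx => (hball x hx).1) l 0 hl with ⟨w, hw, hle⟩ | ⟨h0, -⟩
      · refine le_trans ?_ hle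
        gcongr
        apply hlow _ _ (by linarith)
        have h7 : |(w - e₀) i₀| ≤ ε := by
          rw [← hw]
          have := PiLp.norm_apply_le (w - e₀) i₀
          rwa [Real.norm_eq_abs] at this
        have h8 : (w - e₀) i₀ = w i₀ - 1 := by simp [he₀]
        rw [h8] at h7
        have h9 := (abs_le.1 h7).1
        calc 1 - ε ≤ w i₀ := by linarith
          _ ≤ |w i₀| := le_abs_self _
          _ ≤ N w := abs_le_spike i₀ lam (zero_le_one.trans hlam1) w
      · exfalso
        rw [Metric.mem_closedBall, dist_eq_norm, zero_sub, norm_neg, he₀n] at h0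
        linarith
    have h7 := h6.trans ((hlev1 e₀).2 hNe₀.le)
    rw [← ENNReal.ofReal_add (Real.rpow_nonneg (by linarith) _) (by positivity),
      ENNReal.ofReal_le_one] at h7
    exact h7
  -- inequality B
  have hB : (1 + lam * ε) ^ a ≤ 1 + ε * μ e₁ * (2 * c) := by
    have h6 : N (e₀ + ε • e₁) = 1 + lam * ε := by
      rw [hN, spike_apply, ← Finset.add_sum_erase _ _ (Finset.mem_univ i₀),
        ← Finset.add_sum_erase _ _ (Finset.mem_erase.2 ⟨hi, Finset.mem_univ i₁⟩),
        Finset.sum_eq_zero]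
      · simp [he₀, he₁, wts, hi, hi.symm, abs_of_pos hε0]
      · intro i hi'
        rw [Finset.mem_erase, Finset.mem_erase] at hi'
        simp [he₀, he₁, hi'.1, hi'.2.1]
    have h7 : ENNReal.ofReal ((1 + lam * ε) ^ a) ≤ D μ f 0 (e₀ + ε • e₁) :=
      hlow _ _ (by positivity) h6.ge
    have h8 : D μ f 0 (e₀ + ε • e₁) ≤ 1 + ENNReal.ofReal (ε * μ e₁ * (2 * c)) := by
      refine (D_le_concat μ f 0 e₀ _).trans ?_
      gcongr
      · exact (hlev1 e₀).2 hNe₀.le
      · have h9 := segLen_le μ (f := f) (M := 2 * c) (fun x hx => (hball x hx).2)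
          (Metric.mem_closedBall_self (x := e₀) hε0.le)
          (y := e₀ + ε • e₁) (by
            rw [Metric.mem_closedBall, dist_eq_norm, add_sub_cancel_left, norm_smul, he₁n,
              Real.norm_eq_abs, abs_of_pos hε0, mul_one])
        rw [add_sub_cancel_left, map_smul_eq_mul, Real.norm_eq_abs, abs_of_pos hε0] at h9
        exact h9
    have h10 := h7.trans h8
    rw [← ENNReal.ofReal_one, ← ENNReal.ofReal_add zero_le_one (by
      have := apply_nonneg μ e₁
      positivity), ENNReal.ofReal_le_ofReal_iff (by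
      have := apply_nonneg μ e₁
      positivity)] at h10
    exact h10
  -- contradiction
  have hμ1 : 0 ≤ μ e₁ := apply_nonneg μ e₁
  have h6 : c * κ ≤ 4 * a := by
    have h7 : c / 2 * (κ * ε) ≤ 2 * a * ε := by linarith
    have h8 : (c * κ) * ε ≤ (4 * a) * ε := by nlinarith
    exact le_of_mul_le_mul_right h8 hε0
  have h7 : a * lam ≤ 4 * (c * μ e₁) := by
    have h8 : a * lam / 2 * ε ≤ ε * μ e₁ * (2 * c) := by linarith
    have h9 : (a * lam) * ε ≤ (4 * (c * μ e₁)) * ε := by nlinarith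
    exact le_of_mul_le_mul_right h9 hε0
  have h8 : lam * κ ≤ 16 * μ e₁ := by
    have h9 : a * (lam * κ) ≤ a * (16 * μ e₁) := by
      calc a * (lam * κ) = (a * lam) * κ := by ring
        _ ≤ (4 * (c * μ e₁)) * κ := by gcongr
        _ = 4 * μ e₁ * (c * κ) := by ring
        _ ≤ 4 * μ e₁ * (4 * a) := by gcongr
        _ = a * (16 * μ e₁) := by ring
    exact le_of_mul_le_mul_left h9 ha0
  have h9 : lam * κ = κ + 16 * μ e₁ := by
    rw [hlam]; field_simp
  linarith

end Pool.Agent.R963.Star
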