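import Pool.Agent.R963.Star.Basic

open Set MeasureTheory Filter Topology
open scoped ENNReal NNReal RealInnerProductSpace

namespace Pool.Agent.R963.Star

variable {d : ℕ}

section Ball

variable (N : Seminorm ℝ (E d)) {c C : ℝ}

theorem abs_sub_le_of_bound (hC : ∀ x, N x ≤ C * ‖x‖) (x y : E d) : |N x - N y| ≤ C * ‖x - y‖ :=
  (abs_sub_map_le_sub N x y).trans (hC _)

theorem continuous_of_bound (hC0 : 0 ≤ C) (hC : ∀ x, N x ≤ C * ‖x‖) : Continuous N := by
  have : LipschitzWith (Real.toNNReal C) N := by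
    apply LipschitzWith.of_dist_le_mul
    intro x y
    rw [Real.dist_eq, dist_eq_norm, Real.coe_toNNReal C hC0]
    exact abs_sub_le_of_bound N hC x y
  exact this.continuous

theorem frontier_ball (hN : Continuous N) : frontier {x : E d | N x ≤ 1} = {x | N x = 1} := by
  have hcl : IsClosed {x : E d | N x ≤ 1} := isClosed_le hN continuous_const
  ext x
  rw [hcl.frontier_eq]
  constructor
  · rintro ⟨h1, h2⟩
    by_contra h3
    have h4 : N x < 1 := lt_of_le_of_ne h1 h3
    apply h2
    rw [mem_interior]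
    exact ⟨{y | N y < 1}, fun y hy => by
      have h5 : N y < 1 := hy
      exact h5.le, isOpen_lt hN continuous_const, h4⟩
  · intro h
    refine ⟨le_of_eq h, ?_⟩
    intro h2
    rw [mem_interior_iff_mem_nhds] at h2
    have hcont : Tendsto (fun t : ℝ => t • x) (𝓝 1) (𝓝 x) := by
      have : Continuous (fun t : ℝ => t • x) := by fun_prop
      simpa using this.tendsto 1
    have h3 : ∀ᶠ t : ℝ in 𝓝 1, N (t • x) ≤ 1 := hcont h2
    have h4 : ∃ t : ℝ, 1 < t ∧ N (t • x) ≤ 1 := by
      obtain ⟨ε, hε, h5⟩ := Metric.eventually_nhds_iff.1 h3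
      refine ⟨1 + ε / 2, by linarith, h5 ?_⟩
      rw [Real.dist_eq]
      rw [abs_of_nonneg (by linarith)]
      linarith
    obtain ⟨t, ht, h5⟩ := h4
    rw [map_smul_eq_mul, Real.norm_eq_abs, abs_of_pos (by linarith)] at h5
    have h6 : N x = 1 := h
    rw [h6] at h5
    linarith

theorem growth (hC : ∀ x, N x ≤ C * ‖x‖) (hC0 : 0 < C) {z x u : E d} {ρ s : ℝ}
    (hρ : 0 < ρ) (hz : z = ρ • u) (hz1 : N z = 1) (hx : ‖x - z‖ ≤ 1 / (4 * C)) (hs : 0 ≤ s) :
    N x + s / (2 * ρ) ≤ N (x + s • u) := by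
  have h1 : N (x - z) ≤ 1 / 4 := by
    refine (hC _).trans ?_
    calc C * ‖x - z‖ ≤ C * (1 / (4 * C)) := by gcongr
      _ = 1 / 4 := by field_simp
  have h2 : 3 / 4 ≤ N x := by
    have h3 : N z ≤ N x + N (x - z) := by
      have h4 : z = x - (x - z) := by abel
      calc N z = N (x - (x - z)) := by rw [← h4]
        _ ≤ _ := map_sub_le_add N _ _
    linarith
  have hsρ : 0 < s + ρ := by linarith
  have h5 : x = (s / (s + ρ)) • (x - z) + (ρ / (s + ρ)) • (x + s • u) := by
    have h6 : (s / (s + ρ)) • (x - z) + (ρ / (s + ρ)) • (x + s • u) =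
        (s / (s + ρ) + ρ / (s + ρ)) • x + ((ρ / (s + ρ)) * s - (s / (s + ρ)) * ρ) • u := by
      rw [hz]
      module
    rw [h6, ← add_div, div_self hsρ.ne']
    have h7 : ρ / (s + ρ) * s - s / (s + ρ) * ρ = 0 := by ring
    rw [h7]
    simp
  have h8 : N x ≤ (s / (s + ρ)) * N (x - z) + (ρ / (s + ρ)) * N (x + s • u) := by
    calc N x = N ((s / (s + ρ)) • (x - z) + (ρ / (s + ρ)) • (x + s • u)) := by rw [← h5]
      _ ≤ N ((s / (s + ρ)) • (x - z)) + N ((ρ / (s + ρ)) • (x + s • u)) := map_add_le_add N _ _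
      _ = _ := by
        rw [map_smul_eq_mul, map_smul_eq_mul, Real.norm_eq_abs, Real.norm_eq_abs,
          abs_of_nonneg (by positivity), abs_of_nonneg (by positivity)]
  have h9 : (s + ρ) * N x ≤ s * N (x - z) + ρ * N (x + s • u) := by
    have := mul_le_mul_of_nonneg_left h8 hsρ.le
    calc (s + ρ) * N x ≤ (s + ρ) * ((s / (s + ρ)) * N (x - z) + (ρ / (s + ρ)) * N (x + s • u)) := this
      _ = _ := by field_simp
  have h10 : ρ * (N x + s / (2 * ρ)) ≤ ρ * N (x + s • u) := by
    have : ρ * (N x + s / (2 * ρ)) = ρ * N x + s / 2 := by field_simp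
    rw [this]
    nlinarith
  exact le_of_mul_le_mul_left h10 hρ

theorem hasLipschitzBoundary_ball (hC : ∀ x, N x ≤ C * ‖x‖) (hC0 : 0 < C) :
    HasLipschitzBoundary {x : E d | N x ≤ 1} := by
  have hN := continuous_of_bound N hC0.le hC
  intro z hz
  rw [frontier_ball N hN] at hz
  have hz1 : N z = 1 := hz
  have hz0 : z ≠ 0 := by
    rintro rfl
    simp at hz1
  set ρ : ℝ := ‖z‖ with hρd
  have hρ : 0 < ρ := norm_pos_iff.2 hz0
  set u : E d := ρ⁻¹ • z with hu
  have hzu : z = ρ • u := by rw [hu, smul_inv_smul₀ hρ.ne']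
  have hu1 : ‖u‖ = 1 := by
    rw [hu, norm_smul, norm_inv, Real.norm_eq_abs, abs_of_pos hρ]
    exact inv_mul_cancel₀ hρ.ne'
  -- the projection
  set P : E d → E d := fun x => x - ⟪u, x⟫ • u with hP
  have hPsub : ∀ x y, P x - P y = P (x - y) := by
    intro x y
    simp only [hP, inner_sub_right]
    module
  have hPle : ∀ x, ‖P x‖ ≤ 2 * ‖x‖ := by
    intro x
    calc ‖P x‖ ≤ ‖x‖ + ‖⟪u, x⟫ • u‖ := norm_sub_le _ _
      _ ≤ ‖x‖ + ‖x‖ := by
        gcongr
        rw [norm_smul, hu1, mul_one]
        calc ‖⟪u, x⟫‖ ≤ ‖u‖ * ‖x‖ := norm_inner_le_norm u x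
          _ = ‖x‖ := by rw [hu1, one_mul]
      _ = _ := by ring
  have hPz : P z = 0 := by
    simp only [hP]
    have : ⟪u, z⟫ = ρ := by
      rw [hzu, real_inner_smul_right, real_inner_self_eq_norm_sq, hu1]; ring
    rw [this, ← hzu, sub_self]
  set r : ℝ := 1 / (16 * C) with hr
  have hr0 : 0 < r := by positivity
  set A : ℝ := 2 * ρ * C with hA
  have hA0 : 0 < A := by positivity
  set S : Set (E d) := {y | N y ≤ 1} ∩ Metric.ball z r with hS
  have hzS : z ∈ S := ⟨le_of_eq hz1, Metric.mem_ball_self hr0⟩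
  set φ : S → E d → ℝ := fun y q => ⟪u, (y : E d)⟫ - A * ‖q - P y‖ with hφ
  have hinn : ∀ y : S, ⟪u, (y : E d)⟫ ≤ ρ + r := by
    intro y
    have h1 : ⟪u, (y : E d)⟫ = ⟪u, z⟫ + ⟪u, (y : E d) - z⟫ := by rw [← inner_add_right]; congr 1; abel
    have h2 : ⟪u, z⟫ = ρ := by
      rw [hzu, real_inner_smul_right, real_inner_self_eq_norm_sq, hu1]; ring
    have h3 : ⟪u, (y : E d) - z⟫ ≤ r := by
      calc ⟪u, (y : E d) - z⟫ ≤ ‖u‖ * ‖(y : E d) - z‖ := real_inner_le_norm _ _
        _ = ‖(y : E d) - z‖ := by rw [hu1, one_mul]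
        _ ≤ r := by
          have := y.2.2
          rw [Metric.mem_ball, dist_eq_norm] at this
          exact this.le
    rw [h1, h2]; linarith
  have hbdd : ∀ q, BddAbove (Set.range fun y : S => φ y q) := by
    intro q
    refine ⟨ρ + r, ?_⟩
    rintro _ ⟨y, rfl⟩
    have := hinn y
    have h2 : 0 ≤ A * ‖q - P y‖ := by positivity
    simp only [hφ]
    linarith
  have : Nonempty S := ⟨⟨z, hzS⟩⟩
  set h : E d → ℝ := fun q => ⨆ y : S, φ y q with hh
  refine ⟨u, hu1, h, Real.toNNReal A, ?_, Metric.ball z r, Metric.isOpen_ball,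
    Metric.mem_ball_self hr0, ?_⟩
  · apply LipschitzWith.of_le_add_mul
    intro q q'
    rw [Real.coe_toNNReal A hA0.le]
    apply ciSup_le
    intro y
    have h1 : φ y q' ≤ h q' := le_ciSup (hbdd q') y
    have h2 : φ y q ≤ φ y q' + A * dist q q' := by
      simp only [hφ]
      have h3 : ‖q' - P y‖ ≤ ‖q - P y‖ + dist q q' := by
        rw [dist_eq_norm, norm_sub_rev q q']
        calc ‖q' - P y‖ = ‖(q - P y) + (q' - q)‖ := by congr 1; abel
          _ ≤ _ := norm_add_le _ _
      nlinarith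
    linarith
  · intro x hx
    have hxz : ‖x - z‖ < r := by rwa [Metric.mem_ball, dist_eq_norm] at hx
    constructor
    · intro hxK
      have h1 : φ ⟨x, hxK, hx⟩ (P x) ≤ h (P x) := le_ciSup (hbdd (P x)) _
      have h2 : φ ⟨x, hxK, hx⟩ (P x) = ⟪u, x⟫ := by simp [hφ]
      rw [h2] at h1
      exact h1
    · intro hle
      by_contra hxK
      have hx1 : 1 < N x := not_le.1 hxK
      -- a uniform gap
      set g : ℝ := min ((N x - 1) / (2 * C)) (ρ * (N x - 1)) with hg
      have hg0 : 0 < g := lt_min (by have : 0 < N x - 1 := by linarith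
                                     positivity) (by have : 0 < N x - 1 := by linarith
                                                     positivity)
      have hsup : h (P x) ≤ ⟪u, x⟫ - g := by
        apply ciSup_le
        rintro ⟨y, hyK, hyb⟩
        have hyz : ‖y - z‖ < r := by rwa [Metric.mem_ball, dist_eq_norm] at hyb
        have hy1 : N y ≤ 1 := hyK
        simp only [hφ]
        have hxdec : x = P x + ⟪u, x⟫ • u := by simp [hP]
        have hydec : y = P y + ⟪u, y⟫ • u := by simp [hP]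
        rcases le_or_gt ⟪u, x⟫ ⟪u, y⟫ with hty | hty
        · -- `y` is higher than `x`
          set w : E d := P y + ⟪u, x⟫ • u with hw
          have hwx : ‖x - w‖ = ‖P x - P y‖ := by
            congr 1
            rw [hw]
            nth_rewrite 1 [hxdec]
            abel
          have hPxy : ‖P x - P y‖ ≤ 4 * r := by
            rw [hPsub]
            have h1 : ‖x - y‖ ≤ 2 * r := by
              calc ‖x - y‖ = ‖(x - z) - (y - z)‖ := by congr 1; abel
                _ ≤ ‖x - z‖ + ‖y - z‖ := norm_sub_le _ _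
                _ ≤ _ := by linarith
            linarith [hPle (x - y)]
          have hwz : ‖w - z‖ ≤ 1 / (4 * C) := by
            -- `‖w - z‖ ≤ ‖P y‖ + |⟪u,x⟫ - ρ|`
            have h1 : w - z = P (y - z) + ⟪u, x - z⟫ • u := by
              rw [← hPsub, hPz, sub_zero, inner_sub_right, hw]
              have h2 : ⟪u, z⟫ = ρ := by
                rw [hzu, real_inner_smul_right, real_inner_self_eq_norm_sq, hu1]; ring
              rw [h2]
              nth_rewrite 1 [hzu]
              module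
            have h3 : ‖⟪u, x - z⟫ • u‖ ≤ ‖x - z‖ := by
              rw [norm_smul, hu1, mul_one]
              calc ‖⟪u, x - z⟫‖ ≤ ‖u‖ * ‖x - z‖ := norm_inner_le_norm u _
                _ = _ := by rw [hu1, one_mul]
            calc ‖w - z‖ ≤ ‖P (y - z)‖ + ‖⟪u, x - z⟫ • u‖ := by rw [h1]; exact norm_add_le _ _
              _ ≤ 2 * ‖y - z‖ + ‖x - z‖ := add_le_add (hPle _) h3
              _ ≤ 4 * r := by linarith
              _ = 1 / (4 * C) := by rw [hr]; field_simp; norm_num
          have h2 := growth N hC hC0 (s := ⟪u, y⟫ - ⟪u, x⟫) hρ hzu hz1 hwz (by linarith)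
          have h3 : w + (⟪u, y⟫ - ⟪u, x⟫) • u = y := by
            rw [hw]
            nth_rewrite 3 [hydec]
            module
          rw [h3] at h2
          have h4 : N x - C * ‖P x - P y‖ ≤ N w := by
            have := abs_sub_le_of_bound N hC x w
            rw [hwx] at this
            have := (abs_le.1 this).2
            linarith
          have h5 : (⟪u, y⟫ - ⟪u, x⟫) / (2 * ρ) ≤ 1 - N x + C * ‖P x - P y‖ := by linarith
          rw [div_le_iff₀ (by positivity)] at h5
          have h6 : g ≤ ρ * (N x - 1) := min_le_right _ _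
          have h7 : 0 < ρ * (N x - 1) := by
            have : 0 < N x - 1 := by linarith
            positivity
          have h8 : ⟪u, y⟫ - ⟪u, x⟫ ≤ A * ‖P x - P y‖ - 2 * (ρ * (N x - 1)) := by
            rw [hA]; nlinarith
          linarith
        · -- `y` is lower than `x`
          have h1 : N x - 1 ≤ C * (‖P x - P y‖ + (⟪u, x⟫ - ⟪u, y⟫)) := by
            have h2 := abs_sub_le_of_bound N hC x y
            have h3 := (abs_le.1 h2).2
            have h4 : ‖x - y‖ ≤ ‖P x - P y‖ + (⟪u, x⟫ - ⟪u, y⟫) := by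
              have h5 : x - y = (P x - P y) + (⟪u, x⟫ - ⟪u, y⟫) • u := by
                nth_rewrite 1 [hxdec]
                nth_rewrite 1 [hydec]
                module
              calc ‖x - y‖ ≤ ‖P x - P y‖ + ‖(⟪u, x⟫ - ⟪u, y⟫) • u‖ := by
                    rw [h5]; exact norm_add_le _ _
                _ = _ := by rw [norm_smul, hu1, mul_one, Real.norm_eq_abs, abs_of_pos (by linarith)]
            calc N x - 1 ≤ N x - N y := by linarith
              _ ≤ C * ‖x - y‖ := h3
              _ ≤ _ := by gcongr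
          rcases le_or_gt ((N x - 1) / (2 * C)) (⟪u, x⟫ - ⟪u, y⟫) with h2 | h2
          · have h3 : g ≤ (N x - 1) / (2 * C) := min_le_left _ _
            have h4 : 0 ≤ A * ‖P x - P y‖ := by positivity
            linarith
          · have h3 : g ≤ ρ * (N x - 1) := min_le_right _ _
            rw [lt_div_iff₀ (by positivity)] at h2
            have h4 : (N x - 1) / 2 ≤ C * ‖P x - P y‖ := by nlinarith
            have h5 : ρ * (N x - 1) ≤ A * ‖P x - P y‖ := by
              rw [hA]; nlinarith
            linarith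
      linarith

theorem isStarBody_ball (hc0 : 0 < c) (hc : ∀ x, c * ‖x‖ ≤ N x) (hC : ∀ x, N x ≤ C * ‖x‖)
    (hC0 : 0 < C) : IsStarBody {x : E d | N x ≤ 1} := by
  have hN := continuous_of_bound N hC0.le hC
  refine ⟨?_, hasLipschitzBoundary_ball N hC hC0, ?_, ?_⟩
  · apply Metric.isCompact_of_isClosed_isBounded (isClosed_le hN continuous_const)
    refine (Metric.isBounded_iff_subset_closedBall (0 : E d)).2 ⟨1 / c, fun x hx => ?_⟩
    rw [mem_closedBall_zero_iff, le_div_iff₀ hc0, mul_comm]
    exact (hc x).trans hx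
  · have h1 : {y : E d | N y < 1} ∈ 𝓝 (0 : E d) :=
      (isOpen_lt hN continuous_const).mem_nhds (by simp)
    exact Filter.mem_of_superset h1 fun y hy => by
      have h5 : N y < 1 := hy
      exact h5.le
  · intro v hv
    rw [frontier_ball N hN]
    have hNv : 0 < N v := lt_of_lt_of_le (mul_pos hc0 (norm_pos_iff.2 hv)) (hc v)
    refine ⟨(N v)⁻¹ • v, ⟨?_, (N v)⁻¹, by positivity, rfl⟩, ?_⟩
    · simp only [mem_ofPred_eq]
      rw [map_smul_eq_mul, Real.norm_eq_abs, abs_of_pos (by positivity), inv_mul_cancel₀ hNv.ne']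
    · rintro y ⟨hy, t, ht, rfl⟩
      simp only [mem_ofPred_eq] at hy
      rw [map_smul_eq_mul, Real.norm_eq_abs, abs_of_nonneg ht] at hy
      rw [eq_inv_of_mul_eq_one_left hy]

end Ball

end Pool.Agent.R963.Star
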