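import Pool.Agent.R963.Star.Defs

open Set MeasureTheory
open scoped ENNReal NNReal RealInnerProductSpace

namespace Pool.Agent.R963.Star

variable {d : ℕ}

theorem pathLen_append (μ f : E d → ℝ) (l₁ l₂ : List (E d)) (x : E d) :
    pathLen μ f x (l₁ ++ l₂) = pathLen μ f x l₁ + pathLen μ f (endpt x l₁) l₂ := by
  induction l₁ generalizing x with
  | nil => simp [pathLen, endpt]
  | cons y l ih => simp [pathLen, endpt, ih, add_assoc]

theorem endpt_append (l₁ l₂ : List (E d)) (x : E d) :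
    endpt x (l₁ ++ l₂) = endpt (endpt x l₁) l₂ := by
  induction l₁ generalizing x with
  | nil => rfl
  | cons y l ih => simp [endpt, ih]

theorem D_le_pathLen (μ f : E d → ℝ) (x : E d) (l : List (E d)) :
    D μ f x (endpt x l) ≤ pathLen μ f x l := by
  unfold D
  exact iInf₂_le_of_le l rfl le_rfl

theorem D_le_segLen (μ f : E d → ℝ) (x y : E d) : D μ f x y ≤ segLen μ f x y := by
  have := D_le_pathLen μ f x [y]
  simpa [pathLen, endpt] using this

theorem D_le_cons (μ f : E d → ℝ) (x y z : E d) :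
    D μ f x z ≤ segLen μ f x y + D μ f y z := by
  unfold D
  rw [ENNReal.add_iInf]
  refine le_iInf fun l => ?_
  by_cases h : endpt y l = z
  · rw [iInf_pos h]
    exact iInf₂_le_of_le (y :: l) h le_rfl
  · rw [iInf_neg h]
    simp

theorem D_le_concat (μ f : E d → ℝ) (x y z : E d) :
    D μ f x z ≤ D μ f x y + segLen μ f y z := by
  unfold D
  rw [ENNReal.iInf_add]
  refine le_iInf fun l => ?_
  by_cases h : endpt x l = y
  · rw [iInf_pos h]
    refine iInf₂_le_of_le (l ++ [z]) ?_ ?_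
    · simp [endpt_append, endpt]
    · rw [pathLen_append, h]
      simp [pathLen]
  · rw [iInf_neg h]
    simp

/-- Splitting a segment. -/
theorem segLen_split (μ : Seminorm ℝ (E d)) (f : E d → ℝ) (x y : E d) {θ : ℝ} (h0 : 0 ≤ θ)
    (h1 : θ ≤ 1) :
    segLen μ f x (x + θ • (y - x)) + segLen μ f (x + θ • (y - x)) y = segLen μ f x y := by
  set G : ℝ → ℝ≥0∞ := fun s => ENNReal.ofReal ((f (x + s • (y - x)))⁻¹) with hG
  have e1 : segLen μ f x (x + θ • (y - x)) =
      ENNReal.ofReal (μ (y - x)) * ∫⁻ s in Set.Icc (0 : ℝ) θ, G s := by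
    unfold segLen
    have hμ : μ (x + θ • (y - x) - x) = θ * μ (y - x) := by
      rw [add_sub_cancel_left, map_smul_eq_mul, Real.norm_eq_abs, abs_of_nonneg h0]
    rw [hμ]
    rcases h0.eq_or_lt with rfl | h0'
    · simp
    · have himg : (fun s : ℝ => θ * s) '' (Set.Icc (0 : ℝ) 1) = Set.Icc 0 θ := by
        rw [Set.image_mul_left_Icc h0 zero_le_one]; simp
      have := lintegral_image_eq_lintegral_abs_deriv_mul (s := Set.Icc (0 : ℝ) 1)
        (f := fun s => θ * s) (f' := fun _ => θ) measurableSet_Icc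
        (fun s _ => by simpa using ((hasDerivAt_id s).const_mul θ).hasDerivWithinAt)
        (fun a _ b _ h => mul_left_cancel₀ h0'.ne' h) G
      rw [himg] at this
      rw [this, lintegral_const_mul' _ _ ENNReal.ofReal_ne_top, abs_of_pos h0', mul_comm θ,
        ENNReal.ofReal_mul (apply_nonneg μ _), mul_assoc]
      congr 3
      ext s
      simp only [hG]
      congr 3
      rw [add_sub_cancel_left, smul_smul, mul_comm]
  have e2 : segLen μ f (x + θ • (y - x)) y =
      ENNReal.ofReal (μ (y - x)) * ∫⁻ s in Set.Icc θ (1 : ℝ), G s := by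
    unfold segLen
    have hv : y - (x + θ • (y - x)) = (1 - θ) • (y - x) := by
      rw [sub_smul, one_smul]; abel
    rw [hv]
    have hμ : μ ((1 - θ) • (y - x)) = (1 - θ) * μ (y - x) := by
      rw [map_smul_eq_mul, Real.norm_eq_abs, abs_of_nonneg (by linarith)]
    rw [hμ]
    rcases h1.eq_or_lt with rfl | h1'
    · simp
    · have h1'' : 0 < 1 - θ := by linarith
      have himg : (fun s : ℝ => θ + (1 - θ) * s) '' (Set.Icc (0 : ℝ) 1) = Set.Icc θ 1 := by
        have : (fun s : ℝ => θ + (1 - θ) * s) = (fun t => θ + t) ∘ (fun s => (1 - θ) * s) := rfl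
        rw [this, Set.image_comp, Set.image_mul_left_Icc h1''.le zero_le_one,
          Set.image_const_add_Icc]
        simp
      have := lintegral_image_eq_lintegral_abs_deriv_mul (s := Set.Icc (0 : ℝ) 1)
        (f := fun s => θ + (1 - θ) * s) (f' := fun _ => (1 - θ)) measurableSet_Icc
        (fun s _ => by
          simpa using (((hasDerivAt_id s).const_mul (1 - θ)).const_add θ).hasDerivWithinAt)
        (fun a _ b _ h => mul_left_cancel₀ h1''.ne' (add_left_cancel h)) G
      rw [himg] at this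
      rw [this, lintegral_const_mul' _ _ ENNReal.ofReal_ne_top, abs_of_pos h1'', mul_comm (1 - θ),
        ENNReal.ofReal_mul (apply_nonneg μ _), mul_assoc]
      congr 3
      ext s
      simp only [hG]
      congr 3
      rw [smul_smul, add_smul, add_assoc, mul_comm s]
  rw [e1, e2, ← mul_add]
  unfold segLen
  congr 1
  have hU : Set.Icc (0 : ℝ) 1 = Set.Icc 0 θ ∪ Set.Ioc θ 1 := (Set.Icc_union_Ioc_eq_Icc h0 h1).symm
  rw [hU, lintegral_union measurableSet_Ioc]
  · congr 1
    exact setLIntegral_congr Ioc_ae_eq_Icc.symm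
  · rw [Set.disjoint_left]
    intro a ha hb
    exact absurd ha.2 (not_le.2 hb.1)

theorem weight_smul (α : ℝ) (f₀ : E d → ℝ) {r : ℝ} (hr : 0 < r) (z : E d) :
    weight α f₀ (r • z) = r ^ α * weight α f₀ z := by
  unfold weight
  have h1 : ‖r • z‖ = r * ‖z‖ := by rw [norm_smul, Real.norm_eq_abs, abs_of_pos hr]
  rw [h1, Real.mul_rpow hr.le (norm_nonneg _), smul_smul, mul_inv, mul_assoc]
  congr 3
  field_simp

theorem segLen_smul (μ : Seminorm ℝ (E d)) (α : ℝ) (f₀ : E d → ℝ) {r : ℝ} (hr : 0 < r)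
    (x y : E d) :
    segLen μ (weight α f₀) (r • x) (r • y) =
      ENNReal.ofReal (r ^ (1 - α)) * segLen μ (weight α f₀) x y := by
  unfold segLen
  have h1 : r • y - r • x = r • (y - x) := (smul_sub _ _ _).symm
  have h2 : μ (r • (y - x)) = r * μ (y - x) := by
    rw [map_smul_eq_mul, Real.norm_eq_abs, abs_of_pos hr]
  rw [h1, h2]
  have h3 : ∀ s : ℝ, ENNReal.ofReal ((weight α f₀ (r • x + s • r • (y - x)))⁻¹) =
      ENNReal.ofReal (r ^ (-α)) * ENNReal.ofReal ((weight α f₀ (x + s • (y - x)))⁻¹) := by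
    intro s
    rw [smul_comm s r, ← smul_add, weight_smul α f₀ hr, mul_inv, ← Real.rpow_neg hr.le,
      ENNReal.ofReal_mul (Real.rpow_nonneg hr.le _)]
  simp_rw [h3]
  have h4 : ENNReal.ofReal (r ^ (1 - α)) = ENNReal.ofReal r * ENNReal.ofReal (r ^ (-α)) := by
    rw [← ENNReal.ofReal_mul hr.le, sub_eq_add_neg, Real.rpow_add hr, Real.rpow_one]
  rw [lintegral_const_mul' _ _ ENNReal.ofReal_ne_top, ENNReal.ofReal_mul hr.le, h4]
  ring

theorem pathLen_smul (μ : Seminorm ℝ (E d)) (α : ℝ) (f₀ : E d → ℝ) {r : ℝ} (hr : 0 < r)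
    (x : E d) (l : List (E d)) :
    pathLen μ (weight α f₀) (r • x) (l.map (r • ·)) =
      ENNReal.ofReal (r ^ (1 - α)) * pathLen μ (weight α f₀) x l := by
  induction l generalizing x with
  | nil => simp [pathLen]
  | cons y l ih =>
    simp only [List.map_cons, pathLen]
    rw [ih, segLen_smul μ α f₀ hr, mul_add]

theorem endpt_map (r : ℝ) (x : E d) (l : List (E d)) :
    endpt (r • x) (l.map (r • ·)) = r • endpt x l := by
  induction l generalizing x with
  | nil => rfl
  | cons y l ih => simp only [List.map_cons, endpt]; exact ih y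

theorem D_smul_le (μ : Seminorm ℝ (E d)) (α : ℝ) (f₀ : E d → ℝ) {r : ℝ} (hr : 0 < r)
    (x y : E d) :
    D μ (weight α f₀) (r • x) (r • y) ≤
      ENNReal.ofReal (r ^ (1 - α)) * D μ (weight α f₀) x y := by
  unfold D
  rw [ENNReal.mul_iInf_of_ne (by simpa using Real.rpow_pos_of_pos hr _) ENNReal.ofReal_ne_top]
  refine le_iInf fun l => ?_
  rw [ENNReal.mul_iInf_of_ne (by simpa using Real.rpow_pos_of_pos hr _) ENNReal.ofReal_ne_top]
  refine le_iInf fun hl => ?_
  refine iInf₂_le_of_le (l.map (r • ·)) ?_ (pathLen_smul μ α f₀ hr x l).le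
  rw [endpt_map, hl]

theorem D_smul (μ : Seminorm ℝ (E d)) (α : ℝ) (f₀ : E d → ℝ) {r : ℝ} (hr : 0 < r)
    (x y : E d) :
    D μ (weight α f₀) (r • x) (r • y) =
      ENNReal.ofReal (r ^ (1 - α)) * D μ (weight α f₀) x y := by
  refine le_antisymm (D_smul_le μ α f₀ hr x y) ?_
  have h := D_smul_le μ α f₀ (inv_pos.2 hr) (r • x) (r • y)
  rw [inv_smul_smul₀ hr.ne', inv_smul_smul₀ hr.ne'] at h
  calc ENNReal.ofReal (r ^ (1 - α)) * D μ (weight α f₀) x y
      ≤ ENNReal.ofReal (r ^ (1 - α)) *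
        (ENNReal.ofReal (r⁻¹ ^ (1 - α)) * D μ (weight α f₀) (r • x) (r • y)) := by gcongr
    _ = D μ (weight α f₀) (r • x) (r • y) := by
        rw [← mul_assoc, ← ENNReal.ofReal_mul (Real.rpow_nonneg hr.le _),
          ← Real.mul_rpow hr.le (inv_nonneg.2 hr.le), mul_inv_cancel₀ hr.ne', Real.one_rpow]
        simp

end Pool.Agent.R963.Star
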