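import Pool.Agent.R963.Star.Main

open Set MeasureTheory Filter Topology
open scoped ENNReal NNReal RealInnerProductSpace

namespace Pool.Agent.R963.Star

variable {d : ℕ}

/-- Membership in a star body along a ray. -/
theorem mem_ray {K : Set (E d)} (hK : IsStarBody K) {v : E d} (hv : v ≠ 0) :
    ∃ b : ℝ, 0 < b ∧ ∀ t : ℝ, 0 ≤ t → (t • v ∈ K ↔ t ≤ b) := by
  obtain ⟨hcomp, -, hnhds, hray⟩ := hK
  obtain ⟨x, ⟨hx, b, hb, rfl⟩, huniq⟩ := hray v hv
  have h0 : (0 : E d) ∈ interior K := mem_interior_iff_mem_nhds.2 hnhds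
  have hb0 : 0 < b := by
    rcases hb.eq_or_lt with h | h
    · exfalso
      rw [← h, zero_smul] at hx
      exact hx.2 h0
    · exact h
  have huniq' : ∀ t : ℝ, 0 ≤ t → t • v ∈ frontier K → t = b := by
    intro t ht h
    have h1 : t • v = b • v := huniq (t • v) ⟨h, t, ht, rfl⟩
    have h2 : (t - b) • v = 0 := by rw [sub_smul, h1, sub_self]
    rcases smul_eq_zero.1 h2 with h3 | h3
    · linarith
    · exact absurd h3 hv
  have hseg : ∀ s t : ℝ, 0 ≤ s → s ≤ t → (s • v ∈ K ∧ t • v ∉ K) → b ∈ Set.Icc s t := by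
    intro s t hs hst ⟨h1, h2⟩
    have hconn : IsPreconnected ((fun r : ℝ => r • v) '' Set.Icc s t) := by
      apply isPreconnected_Icc.image
      fun_prop
    have hex : ∃ y ∈ (fun r : ℝ => r • v) '' Set.Icc s t, y ∈ frontier K := by
      by_contra hcon
      push Not at hcon
      have hsub : (fun r : ℝ => r • v) '' Set.Icc s t ⊆ interior K ∪ (closure K)ᶜ := by
        intro y hy
        by_cases hyc : y ∈ closure K
        · left
          by_contra hyi
          exact hcon y hy ⟨hyc, hyi⟩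
        · right
          exact hyc
      have hm1 : s • v ∈ (fun r : ℝ => r • v) '' Set.Icc s t := ⟨s, ⟨le_rfl, hst⟩, rfl⟩
      have hm2 : t • v ∈ (fun r : ℝ => r • v) '' Set.Icc s t := ⟨t, ⟨hst, le_rfl⟩, rfl⟩
      have hi1 : s • v ∈ interior K := by
        by_contra hyi
        exact hcon _ hm1 ⟨subset_closure h1, hyi⟩
      have hi2 : t • v ∈ (closure K)ᶜ := by
        intro hyc
        exact hcon _ hm2 ⟨hyc, fun hyi => h2 (interior_subset hyi)⟩
      obtain ⟨y, -, hy1, hy2⟩ := hconn _ _ isOpen_interior isClosed_closure.isOpen_compl hsub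
        ⟨_, hm1, hi1⟩ ⟨_, hm2, hi2⟩
      exact hy2 (subset_closure (interior_subset hy1))
    obtain ⟨y, ⟨r, hr, rfl⟩, hy⟩ := hex
    have := huniq' r (hs.trans hr.1) hy
    rw [← this]
    exact hr
  have hcl : IsClosed K := hcomp.isClosed
  refine ⟨b, hb0, fun t ht => ⟨fun h => ?_, fun h => ?_⟩⟩
  · by_contra hlt
    rw [not_le] at hlt
    -- a far point is outside
    obtain ⟨R, hR⟩ := (Metric.isBounded_iff_subset_closedBall (0 : E d)).1 hcomp.isBounded
    have hvn : 0 < ‖v‖ := norm_pos_iff.2 hv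
    set T : ℝ := max t ((|R| + 1) / ‖v‖) with hT
    have hTK : T • v ∉ K := by
      intro h1
      have h2 := hR h1
      rw [mem_closedBall_zero_iff, norm_smul, Real.norm_eq_abs,
        abs_of_nonneg (ht.trans (le_max_left _ _))] at h2
      have h3 : (|R| + 1) / ‖v‖ * ‖v‖ ≤ T * ‖v‖ := by gcongr; exact le_max_right _ _
      rw [div_mul_cancel₀ _ hvn.ne'] at h3
      linarith [le_abs_self R]
    have := hseg t T ht (le_max_left _ _) ⟨h, hTK⟩
    linarith [this.1]
  · by_contra hnot
    have h0K : (0 : ℝ) • v ∈ K := by rw [zero_smul]; exact interior_subset h0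
    have h1 := hseg 0 t le_rfl ht ⟨h0K, hnot⟩
    have h2 : t = b := le_antisymm h h1.2
    apply hnot
    rw [h2]
    have := frontier_subset_closure hx
    rwa [hcl.closure_eq] at this

/-! ### Dimension one -/

/-- The unit vector of `ℝ¹`. -/
noncomputable def one1 : E 1 := EuclideanSpace.single 0 (1 : ℝ)

theorem eq_smul_one1 (x : E 1) : x = (x 0) • one1 := by
  ext i
  rw [Subsingleton.elim i 0]
  simp [one1]

theorem mu_eq (μ : Seminorm ℝ (E 1)) (x : E 1) : μ x = |x 0| * μ one1 := by
  conv_lhs => rw [eq_smul_one1 x]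
  rw [map_smul_eq_mul, Real.norm_eq_abs]

theorem seg_potential (μ : Seminorm ℝ (E 1)) {f : E 1 → ℝ} {σ β : ℝ} (hβ : 0 < β)
    (hμ1 : 0 < μ one1) (hσ : σ = 1 ∨ σ = -1) (hf : ∀ z : E 1, 0 < σ * z 0 → f z = μ one1 * β)
    (x y : E 1) :
    ENNReal.ofReal (max (σ * y 0) 0 / β) ≤
      ENNReal.ofReal (max (σ * x 0) 0 / β) + segLen μ f x y := by
  by_cases h : σ * y 0 ≤ max (σ * x 0) 0
  · exact le_add_right (ENNReal.ofReal_le_ofReal
      (div_le_div_of_nonneg_right (max_le h (le_max_right _ _)) hβ.le))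
  rw [not_le] at h
  have hx : σ * x 0 < σ * y 0 := (le_max_left _ _).trans_lt h
  have hy : 0 < σ * y 0 := (le_max_right _ _).trans_lt h
  set A := σ * x 0 with hA
  set B := σ * y 0 with hB
  have hBA : 0 < B - A := by linarith
  set θ : ℝ := max (-A / (B - A)) 0 with hθ
  have hθ0 : 0 ≤ θ := le_max_right _ _
  have hθ1 : θ ≤ 1 := by
    apply max_le _ zero_le_one
    rw [div_le_one hBA]; linarith
  have hkey : (B - A) * (1 - θ) = B - max A 0 := by
    rcases le_or_gt A 0 with hA0 | hA0
    · have : θ = -A / (B - A) := max_eq_left (by apply div_nonneg <;> linarith)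
      rw [this, max_eq_right hA0]
      field_simp
      ring
    · have : θ = 0 := max_eq_right (by
        apply div_nonpos_of_nonpos_of_nonneg <;> linarith)
      rw [this, max_eq_left hA0.le]
      ring
  have hμyx : μ (y - x) = (B - A) * μ one1 := by
    rw [mu_eq]
    congr 1
    have : (y - x) 0 = y 0 - x 0 := rfl
    rw [this]
    rcases hσ with rfl | rfl
    · rw [hB, hA, one_mul, one_mul, abs_of_pos]
      rw [hB, hA, one_mul, one_mul] at hBA
      exact hBA
    · rw [hB, hA] at hBA ⊢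
      rw [abs_of_neg (by linarith)]
      ring
  have hseg : ENNReal.ofReal ((B - max A 0) / β) ≤ segLen μ f x y := by
    unfold segLen
    rw [hμyx]
    have h1 : ∫⁻ s in Set.Ioc θ (1 : ℝ), ENNReal.ofReal ((μ one1 * β)⁻¹) ≤
        ∫⁻ s in Set.Icc (0 : ℝ) 1, ENNReal.ofReal ((f (x + s • (y - x)))⁻¹) := by
      calc ∫⁻ s in Set.Ioc θ (1 : ℝ), ENNReal.ofReal ((μ one1 * β)⁻¹)
          = ∫⁻ s in Set.Ioc θ (1 : ℝ), ENNReal.ofReal ((f (x + s • (y - x)))⁻¹) := by
            apply setLIntegral_congr_fun measurableSet_Ioc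
            intro s hs
            have h2 : 0 < σ * (x + s • (y - x)) 0 := by
              have h3 : σ * (x + s • (y - x)) 0 = A + s * (B - A) := by
                have : (x + s • (y - x)) 0 = x 0 + s * (y 0 - x 0) := by simp
                rw [this, hA, hB]; ring
              rw [h3]
              have h4 : -A / (B - A) < s := (le_max_left _ _).trans_lt hs.1
              rw [div_lt_iff₀ hBA] at h4
              linarith
            simp only [hf _ h2]
        _ ≤ _ := by
            apply lintegral_mono_set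
            intro s hs
            exact ⟨hθ0.trans hs.1.le, hs.2⟩
    calc ENNReal.ofReal ((B - max A 0) / β)
        = ENNReal.ofReal ((B - A) * μ one1) *
            ∫⁻ s in Set.Ioc θ (1 : ℝ), ENNReal.ofReal ((μ one1 * β)⁻¹) := by
          rw [setLIntegral_const, Real.volume_Ioc, ← ENNReal.ofReal_mul (by positivity),
            ← ENNReal.ofReal_mul (by positivity), ← hkey]
          congr 1
          field_simp
      _ ≤ _ := by gcongr
  have hmax : max B 0 = B := max_eq_left hy.le
  rw [hmax]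
  calc ENNReal.ofReal (B / β) = ENNReal.ofReal (max A 0 / β + (B - max A 0) / β) := by
        congr 1; ring
    _ = ENNReal.ofReal (max A 0 / β) + ENNReal.ofReal ((B - max A 0) / β) :=
        ENNReal.ofReal_add (by positivity) (by apply div_nonneg <;> linarith)
    _ ≤ _ := by gcongr

theorem path_potential (μ : Seminorm ℝ (E 1)) {f : E 1 → ℝ} {σ β : ℝ} (hβ : 0 < β)
    (hμ1 : 0 < μ one1) (hσ : σ = 1 ∨ σ = -1) (hf : ∀ z : E 1, 0 < σ * z 0 → f z = μ one1 * β)
    (l : List (E 1)) : ∀ x : E 1,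
    ENNReal.ofReal (max (σ * (endpt x l) 0) 0 / β) ≤
      ENNReal.ofReal (max (σ * x 0) 0 / β) + pathLen μ f x l := by
  induction l with
  | nil => intro x; simp [endpt, pathLen]
  | cons y l ih =>
    intro x
    simp only [endpt, pathLen]
    refine (ih y).trans ?_
    rw [← add_assoc]
    gcongr
    exact seg_potential μ hβ hμ1 hσ hf x y

theorem D_eq (μ : Seminorm ℝ (E 1)) {f : E 1 → ℝ} {σ β : ℝ} (hβ : 0 < β)
    (hμ1 : 0 < μ one1) (hσ : σ = 1 ∨ σ = -1) (hf : ∀ z : E 1, 0 < σ * z 0 → f z = μ one1 * β)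
    {z : E 1} (hz : 0 < σ * z 0) : D μ f 0 z = ENNReal.ofReal (σ * z 0 / β) := by
  apply le_antisymm
  · refine (D_le_segLen μ f 0 z).trans ?_
    unfold segLen
    simp only [sub_zero, zero_add]
    have h1 : ∫⁻ s in Set.Icc (0 : ℝ) 1, ENNReal.ofReal ((f (s • z))⁻¹) =
        ENNReal.ofReal ((μ one1 * β)⁻¹) := by
      rw [setLIntegral_congr Ioc_ae_eq_Icc.symm]
      have h2 : ∫⁻ s in Set.Ioc (0 : ℝ) 1, ENNReal.ofReal ((f (s • z))⁻¹) =
          ∫⁻ s in Set.Ioc (0 : ℝ) 1, ENNReal.ofReal ((μ one1 * β)⁻¹) := by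
        apply setLIntegral_congr_fun measurableSet_Ioc
        intro s hs
        have h3 : 0 < σ * (s • z) 0 := by
          have : (s • z) 0 = s * z 0 := rfl
          rw [this]
          have := mul_pos hs.1 hz
          linarith
        simp only [hf _ h3]
      rw [h2]
      simp
    rw [h1, ← ENNReal.ofReal_mul (apply_nonneg μ _), mu_eq]
    apply ENNReal.ofReal_le_ofReal
    have h2 : |z 0| = σ * z 0 := by
      rcases hσ with rfl | rfl
      · rw [one_mul] at hz ⊢
        exact abs_of_pos hz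
      · rw [abs_of_neg (by linarith)]; ring
    rw [h2]
    apply le_of_eq
    field_simp
  · unfold D
    refine le_iInf₂ fun l hl => ?_
    have := path_potential μ hβ hμ1 hσ hf l 0
    rw [hl, max_eq_left hz.le] at this
    simpa using this

theorem shape_dim_one (μ : Seminorm ℝ (E 1)) (hμ : ∀ x, μ x = 0 → x = 0) (K : Set (E 1))
    (hK : IsStarBody K) : ∃ α : ℝ, α < 1 ∧ ∃ f₀ : E 1 → ℝ, IsAngular f₀ ∧ K = shape μ α f₀ := by
  have h1ne : one1 ≠ 0 := by
    intro h
    have := congrArg (fun x : E 1 => x 0) h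
    simp [one1] at this
  have hμ1 : 0 < μ one1 := lt_of_le_of_ne (apply_nonneg μ _) (fun h => h1ne (hμ _ h.symm))
  obtain ⟨b, hb, hbK⟩ := mem_ray hK h1ne
  obtain ⟨b', hb', hbK'⟩ := mem_ray hK (neg_ne_zero.2 h1ne)
  set f₀ : E 1 → ℝ := fun x => if 0 ≤ x 0 then μ one1 * b else μ one1 * b' with hf₀
  have hsph : ∀ x ∈ Metric.sphere (0 : E 1) 1, x 0 = 1 ∨ x 0 = -1 := by
    intro x hx
    rw [mem_sphere_zero_iff_norm, EuclideanSpace.norm_eq] at hx
    simp only [Finset.univ_unique, Fin.default_eq_zero, Fin.isValue, Real.norm_eq_abs, sq_abs,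
      Finset.sum_singleton] at hx
    rw [Real.sqrt_sq_eq_abs] at hx
    rcases abs_eq (zero_le_one' ℝ) |>.1 hx with h | h
    · exact Or.inl h
    · exact Or.inr h
  have hang : IsAngular f₀ := by
    refine ⟨fun x _ => ?_, ?_⟩
    · simp only [hf₀]
      split_ifs <;> positivity
    · refine ⟨Real.toNNReal |μ one1 * b - μ one1 * b'|, ?_⟩
      apply LipschitzOnWith.of_dist_le_mul
      intro x hx y hy
      rw [Real.coe_toNNReal _ (abs_nonneg _)]
      have hd : ∀ p q : E 1, p 0 = 1 → q 0 = -1 → 1 ≤ dist p q := by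
        intro p q hp hq
        rw [dist_eq_norm]
        have h3 := PiLp.norm_apply_le (p - q) 0
        have h4 : (p - q) 0 = 2 := by
          have : (p - q) 0 = p 0 - q 0 := rfl
          rw [this, hp, hq]; norm_num
        rw [h4] at h3
        norm_num at h3
        linarith
      have hnn : 0 ≤ |μ one1 * b - μ one1 * b'| := abs_nonneg _
      rcases hsph x hx with h1 | h1 <;> rcases hsph y hy with h2 | h2
      · simp only [hf₀, h1, h2]; simp; positivity
      · have := hd x y h1 h2
        simp only [hf₀, h1, h2, Real.dist_eq]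
        norm_num
        nlinarith
      · have := hd y x h2 h1
        rw [dist_comm] at this
        simp only [hf₀, h1, h2, Real.dist_eq]
        norm_num
        rw [abs_sub_comm]
        nlinarith
      · simp only [hf₀, h1, h2]; simp; positivity
  refine ⟨0, zero_lt_one, f₀, hang, ?_⟩
  have hw1 : ∀ z : E 1, 0 < 1 * z 0 → weight 0 f₀ z = μ one1 * b := by
    intro z hz
    rw [one_mul] at hz
    unfold weight
    rw [Real.rpow_zero, one_mul]
    have : 0 ≤ (‖z‖⁻¹ • z) 0 := by
      have h3 : (‖z‖⁻¹ • z) 0 = ‖z‖⁻¹ * z 0 := rfl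
      rw [h3]; positivity
    simp only [hf₀, if_pos this]
  have hw2 : ∀ z : E 1, 0 < (-1) * z 0 → weight 0 f₀ z = μ one1 * b' := by
    intro z hz
    have hz0 : z 0 < 0 := by linarith
    have hzn : 0 < ‖z‖ := norm_pos_iff.2 (by
      intro h
      rw [h] at hz0
      simp at hz0)
    unfold weight
    rw [Real.rpow_zero, one_mul]
    have : ¬ 0 ≤ (‖z‖⁻¹ • z) 0 := by
      have h3 : (‖z‖⁻¹ • z) 0 = ‖z‖⁻¹ * z 0 := rfl
      rw [h3, not_le]
      exact mul_neg_of_pos_of_neg (inv_pos.2 hzn) hz0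
    simp only [hf₀, if_neg this]
  ext z
  have hzdec := eq_smul_one1 z
  rcases lt_trichotomy (z 0) 0 with h | h | h
  · have hD := D_eq μ hb' hμ1 (Or.inr rfl) hw2 (z := z) (by linarith)
    have h1 : z ∈ K ↔ -z 0 ≤ b' := by
      have h2 := hbK' (-z 0) (by linarith)
      rw [← h2]
      have : (-z 0) • (-one1) = z := by
        rw [smul_neg, neg_smul, neg_neg]; exact hzdec.symm
      rw [this]
    rw [h1]
    change _ ↔ D μ (weight 0 f₀) 0 z ≤ 1
    rw [hD, ENNReal.ofReal_le_one, div_le_one hb']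
    constructor <;> intro h3 <;> linarith
  · have hz0 : z = 0 := by rw [hzdec, h, zero_smul]
    subst hz0
    constructor
    · intro _
      change D μ (weight 0 f₀) 0 0 ≤ 1
      have := D_le_pathLen μ (weight 0 f₀) (0 : E 1) []
      refine le_trans (b := 0) ?_ zero_le_one
      simpa [pathLen, endpt] using this
    · intro _
      exact mem_of_mem_nhds hK.2.2.1
  · have hD := D_eq μ hb hμ1 (Or.inl rfl) hw1 (z := z) (by linarith)
    have h1 : z ∈ K ↔ z 0 ≤ b := by
      have h2 := hbK (z 0) h.le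
      rw [← h2, ← hzdec]
    rw [h1]
    change _ ↔ D μ (weight 0 f₀) 0 z ≤ 1
    rw [hD, ENNReal.ofReal_le_one, div_le_one hb, one_mul]

end Pool.Agent.R963.Star
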